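import Mathlib

/-!
# Convex bodies are determined by the real Ehrhart functions of their integer translates

`realEhrhart K s` is the number of integer points of the dilate `s K` (real Ehrhart function).
We prove that two convex bodies `K, H` in `ℝ^d` with
`L_{K+w}(s) = L_{H+w}(s)` for all integer vectors `w` and all real `s` in some interval `(0, ε)`
are equal.

Idea: for irrational small `s`, `L_{K+w}(s)` is `0` or `1` and tells whether `s w ∈ ℤ^d - sK`.
The points `x - s w` are dense, hence `sK + ℤ^d = sH + ℤ^d`, which forces `K = H + x / s` with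
`x` integral. Doing this for two values of `s` with irrational ratio forces `x = 0`.
-/

namespace Pool.Agent.Results.MP_c39918_co.Reconstruction

open Set Pointwise

/-- The integer vector `x` viewed as a real vector. -/
def toReal {d : ℕ} (x : Fin d → ℤ) : Fin d → ℝ := fun i => (x i : ℝ)

/-- The real Ehrhart function `L_K(s) = #(sK ∩ ℤ^d)`. -/
noncomputable def realEhrhart {d : ℕ} (K : Set (Fin d → ℝ)) (s : ℝ) : ℕ :=
  Set.ncard {x : Fin d → ℤ | toReal x ∈ s • K}

/-- The translate `K + w` of `K` by the integer vector `w`. -/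
def translate {d : ℕ} (K : Set (Fin d → ℝ)) (w : Fin d → ℤ) : Set (Fin d → ℝ) :=
  {y | ∃ z ∈ K, y = z + toReal w}

/-- A convex body: a compact convex set with nonempty interior. -/
def IsConvexBody {d : ℕ} (K : Set (Fin d → ℝ)) : Prop :=
  IsCompact K ∧ Convex ℝ K ∧ (interior K).Nonempty

section Basic

variable {d : ℕ}

lemma toReal_sub (x y : Fin d → ℤ) : toReal (x - y) = toReal x - toReal y := by
  ext i; simp [toReal]

lemma toReal_add (x y : Fin d → ℤ) : toReal (x + y) = toReal x + toReal y := by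
  ext i; simp [toReal]

lemma eq_zero_of_norm_lt {x : Fin d → ℤ} (h : ‖toReal x‖ < 1) : x = 0 := by
  ext i
  have h1 : ‖toReal x i‖ < 1 := lt_of_le_of_lt (norm_le_pi_norm _ i) h
  have h2 : |(x i : ℝ)| < 1 := by simpa [toReal, Real.norm_eq_abs] using h1
  have h3 : |x i| < 1 := by exact_mod_cast h2
  simpa using Int.abs_lt_one_iff.mp h3

lemma eq_of_norm_lt {x y : Fin d → ℤ} (h : ‖toReal x - toReal y‖ < 1) : x = y := by
  have : x - y = 0 := eq_zero_of_norm_lt (by rwa [toReal_sub])
  exact sub_eq_zero.mp this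

lemma mem_smul_translate {K : Set (Fin d → ℝ)} {s : ℝ} (w x : Fin d → ℤ) :
    toReal x ∈ s • translate K w ↔ toReal x - s • toReal w ∈ s • K := by
  constructor
  · rintro ⟨y, ⟨z, hz, rfl⟩, hy⟩
    refine ⟨z, hz, ?_⟩
    simp only at hy
    rw [← hy, smul_add]; simp
  · rintro ⟨z, hz, hy⟩
    refine ⟨z + toReal w, ⟨z, hz, rfl⟩, ?_⟩
    simp only at hy
    simp only [smul_add, hy]; simp

/-- The points `x - s w` are dense when `s` is irrational. -/
lemma dense_points {s : ℝ} (hs : Irrational s) :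
    Dense {y : Fin d → ℝ | ∃ x w : Fin d → ℤ, y = toReal x - s • toReal w} := by
  have h1 : Dense (AddSubgroup.closure {s, (1 : ℝ)} : Set ℝ) :=
    dense_addSubgroupClosure_pair_iff.mpr (by simpa using hs)
  have h2 : Dense (Set.pi (Set.univ : Set (Fin d))
      (fun _ => (AddSubgroup.closure {s, (1 : ℝ)} : Set ℝ))) :=
    dense_pi _ (fun _ _ => h1)
  refine h2.mono ?_
  intro y hy
  have h3 : ∀ i, ∃ a b : ℤ, y i = (a : ℝ) - s * b := by
    intro i
    have h4 : y i ∈ AddSubgroup.closure {s, (1 : ℝ)} := hy i (Set.mem_univ i)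
    rw [AddSubgroup.mem_closure_pair] at h4
    obtain ⟨m, n, hmn⟩ := h4
    refine ⟨n, -m, ?_⟩
    rw [← hmn]
    simp
    ring
  choose a b hab using h3
  refine ⟨a, b, ?_⟩
  ext i
  simp [toReal, hab i]

/-- The translates of a compact set by all integer vectors form a closed set. -/
lemma isClosed_lattice_add {K : Set (Fin d → ℝ)} (hK : IsCompact K) :
    IsClosed {y : Fin d → ℝ | ∃ x : Fin d → ℤ, y - toReal x ∈ K} := by
  have hcl : IsClosed (Set.range (toReal : (Fin d → ℤ) → (Fin d → ℝ))) := by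
    have : Set.range (toReal : (Fin d → ℤ) → (Fin d → ℝ)) =
        Set.pi Set.univ (fun _ => Set.range ((↑) : ℤ → ℝ)) := by
      ext y
      constructor
      · rintro ⟨x, rfl⟩ i _
        exact ⟨x i, rfl⟩
      · intro hy
        have : ∀ i, ∃ a : ℤ, (a : ℝ) = y i := fun i => hy i (Set.mem_univ i)
        choose a ha using this
        exact ⟨a, funext ha⟩
    rw [this]
    exact isClosed_set_pi (fun _ _ => Int.isClosedEmbedding_coe_real.isClosed_range)
  have h := hcl.add_left_of_isCompact hK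
  have heq : {y : Fin d → ℝ | ∃ x : Fin d → ℤ, y - toReal x ∈ K} =
      K + Set.range (toReal : (Fin d → ℤ) → (Fin d → ℝ)) := by
    ext y
    simp only [Set.mem_ofPred_eq, Set.mem_add, Set.mem_range, exists_exists_eq_and]
    constructor
    · rintro ⟨x, hx⟩
      exact ⟨_, hx, x, by simp⟩
    · rintro ⟨k, hk, x, rfl⟩
      exact ⟨x, by simpa using hk⟩
  rw [heq]
  exact h

/-- Sanity check: for a convex body (indeed any bounded set) and `s > 0` the set of integer
points counted by `realEhrhart` is finite, so `Set.ncard` is its true cardinality. -/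
lemma finite_points {K : Set (Fin d → ℝ)} (hK : IsCompact K) (s : ℝ) :
    {x : Fin d → ℤ | toReal x ∈ s • K}.Finite := by
  obtain ⟨C, hC⟩ := (hK.smul s).isBounded.exists_norm_le
  refine (Set.finite_Icc (fun _ : Fin d => -⌈C⌉) (fun _ : Fin d => ⌈C⌉)).subset ?_
  intro x hx
  have h1 : ∀ i, |(x i : ℝ)| ≤ C := by
    intro i
    have := (norm_le_pi_norm (toReal x) i).trans (hC _ hx)
    simpa [toReal, Real.norm_eq_abs] using this
  have h2 : ∀ i, |x i| ≤ ⌈C⌉ := by
    intro i
    have h3 : ((|x i| : ℤ) : ℝ) ≤ C := by simpa using h1 i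
    exact_mod_cast h3.trans (Int.le_ceil C)
  exact ⟨fun i => (abs_le.mp (h2 i)).1, fun i => (abs_le.mp (h2 i)).2⟩

end Basic

section Main

variable {d : ℕ}

/-- For a small dilate the real Ehrhart function of a translate is positive exactly if some
point `x - s w` lies in the dilate. -/
lemma realEhrhart_pos_iff {K : Set (Fin d → ℝ)} {s : ℝ}
    (hdiam : ∀ a ∈ s • K, ∀ b ∈ s • K, ‖a - b‖ < 1) (w : Fin d → ℤ) :
    0 < realEhrhart (translate K w) s ↔ ∃ x : Fin d → ℤ, toReal x - s • toReal w ∈ s • K := by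
  unfold realEhrhart
  have hsub : {x : Fin d → ℤ | toReal x ∈ s • translate K w}.Subsingleton := by
    intro x hx y hy
    have hx' := (mem_smul_translate w x).mp hx
    have hy' := (mem_smul_translate w y).mp hy
    apply eq_of_norm_lt
    have := hdiam _ hx' _ hy'
    simpa using this
  rw [Set.ncard_pos hsub.finite]
  constructor
  · rintro ⟨x, hx⟩
    exact ⟨x, (mem_smul_translate w x).mp hx⟩
  · rintro ⟨x, hx⟩
    exact ⟨x, (mem_smul_translate w x).mpr hx⟩

/-- One inclusion modulo the integer lattice. -/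
lemma subset_lattice_add {K' H' : Set (Fin d → ℝ)} {s : ℝ} (hs : Irrational s)
    (hK : Convex ℝ K') (hKi : (interior K').Nonempty) (hH : IsCompact H')
    (h : ∀ w x : Fin d → ℤ, toReal x - s • toReal w ∈ K' →
      ∃ x' : Fin d → ℤ, toReal x' - s • toReal w ∈ H') :
    K' ⊆ {y : Fin d → ℝ | ∃ x : Fin d → ℤ, y - toReal x ∈ H'} := by
  have h1 : K' ⊆ closure (interior K') := by
    rw [hK.closure_interior_eq_closure_of_nonempty_interior hKi]
    exact subset_closure
  have h2 : interior K' ⊆ closure (interior K' ∩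
      {y : Fin d → ℝ | ∃ x w : Fin d → ℤ, y = toReal x - s • toReal w}) :=
    (dense_points hs).open_subset_closure_inter isOpen_interior
  have h3 : interior K' ∩ {y : Fin d → ℝ | ∃ x w : Fin d → ℤ, y = toReal x - s • toReal w} ⊆
      {y : Fin d → ℝ | ∃ x : Fin d → ℤ, y - toReal x ∈ H'} := by
    rintro y ⟨hy, x, w, rfl⟩
    obtain ⟨x', hx'⟩ := h w x (interior_subset hy)
    refine ⟨x - x', ?_⟩
    have : toReal x - s • toReal w - toReal (x - x') = toReal x' - s • toReal w := by
      rw [toReal_sub]; abel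
    rw [this]
    exact hx'
  have h4 := closure_minimal h3 (isClosed_lattice_add hH)
  have h5 := closure_minimal (h2.trans h4) (isClosed_lattice_add hH)
  exact h1.trans h5

/-- If two sets of small diameter agree modulo the lattice they are lattice translates. -/
lemma translate_of_mod {K' H' : Set (Fin d → ℝ)} (hne : K'.Nonempty)
    (hKd : ∀ a ∈ K', ∀ b ∈ K', ‖a - b‖ < 1 / 2)
    (hHd : ∀ a ∈ H', ∀ b ∈ H', ‖a - b‖ < 1 / 2)
    (h1 : K' ⊆ {y : Fin d → ℝ | ∃ x : Fin d → ℤ, y - toReal x ∈ H'})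
    (h2 : H' ⊆ {y : Fin d → ℝ | ∃ x : Fin d → ℤ, y - toReal x ∈ K'}) :
    ∃ x : Fin d → ℤ, ∀ y, y ∈ K' ↔ y - toReal x ∈ H' := by
  obtain ⟨k0, hk0⟩ := hne
  obtain ⟨x0, hx0⟩ := h1 hk0
  have key : ∀ y ∈ K', y - toReal x0 ∈ H' := by
    intro y hy
    obtain ⟨x, hx⟩ := h1 hy
    have : x = x0 := by
      apply eq_of_norm_lt
      have e : toReal x - toReal x0 = (y - k0) - ((y - toReal x) - (k0 - toReal x0)) := by abel
      rw [e]
      calc ‖(y - k0) - ((y - toReal x) - (k0 - toReal x0))‖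
          ≤ ‖y - k0‖ + ‖(y - toReal x) - (k0 - toReal x0)‖ := norm_sub_le _ _
        _ < 1 / 2 + 1 / 2 := add_lt_add (hKd _ hy _ hk0) (hHd _ hx _ hx0)
        _ = 1 := by norm_num
    rw [← this]
    exact hx
  refine ⟨x0, fun y => ⟨key y, fun hy => ?_⟩⟩
  obtain ⟨x', hx'⟩ := h2 hy
  -- `y - x0 - x' ∈ K'`, hence `y - x0 - x' - x0 ∈ H'`, which is close to `y - x0`
  have h3 : y - toReal x0 - toReal x' - toReal x0 ∈ H' := key _ hx'
  have h4 : x' = -x0 := by
    have : x' + x0 = 0 := by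
      apply eq_zero_of_norm_lt
      have e : toReal (x' + x0) = (y - toReal x0) - (y - toReal x0 - toReal x' - toReal x0) := by
        rw [toReal_add]; abel
      rw [e]
      exact (hHd _ hy _ h3).trans (by norm_num)
    exact eq_neg_of_add_eq_zero_left this
  have h5 : toReal x' = - toReal x0 := by
    rw [h4]; ext i; simp [toReal]
  rw [h5] at hx'
  simpa using hx'

lemma smul_diam {K : Set (Fin d → ℝ)} {C s δ : ℝ} (hC : ∀ a ∈ K, ‖a‖ ≤ C) (hs : 0 < s)
    (hsC : s * (2 * C) < δ) : ∀ a ∈ s • K, ∀ b ∈ s • K, ‖a - b‖ < δ := by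
  rintro _ ⟨a, ha, rfl⟩ _ ⟨b, hb, rfl⟩
  simp only
  rw [← smul_sub, norm_smul, Real.norm_eq_abs, abs_of_pos hs]
  refine lt_of_le_of_lt ?_ hsC
  apply mul_le_mul_of_nonneg_left _ hs.le
  calc ‖a - b‖ ≤ ‖a‖ + ‖b‖ := norm_sub_le _ _
    _ ≤ C + C := add_le_add (hC _ ha) (hC _ hb)
    _ = 2 * C := by ring

/-- For one irrational small parameter: `K` is a translate of `H` by `x / s`, `x` integral. -/
lemma translate_of_param {K H : Set (Fin d → ℝ)} (hK : IsConvexBody K) (hH : IsConvexBody H)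
    {C s : ℝ} (hCK : ∀ a ∈ K, ‖a‖ ≤ C) (hCH : ∀ a ∈ H, ‖a‖ ≤ C) (hs : 0 < s)
    (hirr : Irrational s) (hsC : s * (2 * C) < 1 / 2)
    (h : ∀ w : Fin d → ℤ, realEhrhart (translate K w) s = realEhrhart (translate H w) s) :
    ∃ x : Fin d → ℤ, ∀ y, y ∈ K ↔ y - s⁻¹ • toReal x ∈ H := by
  have hKd := smul_diam (δ := 1 / 2) hCK hs hsC
  have hHd := smul_diam (δ := 1 / 2) hCH hs hsC
  have hKd1 : ∀ a ∈ s • K, ∀ b ∈ s • K, ‖a - b‖ < 1 :=
    fun a ha b hb => (hKd a ha b hb).trans (by norm_num)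
  have hHd1 : ∀ a ∈ s • H, ∀ b ∈ s • H, ‖a - b‖ < 1 :=
    fun a ha b hb => (hHd a ha b hb).trans (by norm_num)
  have hiff : ∀ w : Fin d → ℤ, (∃ x : Fin d → ℤ, toReal x - s • toReal w ∈ s • K) ↔
      (∃ x : Fin d → ℤ, toReal x - s • toReal w ∈ s • H) := by
    intro w
    rw [← realEhrhart_pos_iff hKd1 w, ← realEhrhart_pos_iff hHd1 w, h w]
  have hint : ∀ {L : Set (Fin d → ℝ)}, (interior L).Nonempty → (interior (s • L)).Nonempty := by
    intro L hL
    rw [interior_smul₀ hs.ne']
    exact hL.smul_set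
  have hsub1 : s • K ⊆ {y : Fin d → ℝ | ∃ x : Fin d → ℤ, y - toReal x ∈ s • H} :=
    subset_lattice_add hirr (hK.2.1.smul s) (hint hK.2.2) (hH.1.smul s)
      (fun w x hx => (hiff w).mp ⟨x, hx⟩)
  have hsub2 : s • H ⊆ {y : Fin d → ℝ | ∃ x : Fin d → ℤ, y - toReal x ∈ s • K} :=
    subset_lattice_add hirr (hH.2.1.smul s) (hint hH.2.2) (hK.1.smul s)
      (fun w x hx => (hiff w).mpr ⟨x, hx⟩)
  have hne : (s • K).Nonempty := (hint hK.2.2).mono interior_subset
  obtain ⟨x, hx⟩ := translate_of_mod hne hKd hHd hsub1 hsub2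
  refine ⟨x, fun y => ?_⟩
  have h1 : y ∈ K ↔ s • y ∈ s • K := (Set.smul_mem_smul_set_iff₀ hs.ne' K y).symm
  have h2 : y - s⁻¹ • toReal x ∈ H ↔ s • (y - s⁻¹ • toReal x) ∈ s • H :=
    (Set.smul_mem_smul_set_iff₀ hs.ne' H _).symm
  rw [h1, h2, hx (s • y)]
  have : s • (y - s⁻¹ • toReal x) = s • y - toReal x := by
    rw [smul_sub, smul_smul, mul_inv_cancel₀ hs.ne', one_smul]
  rw [this]

/-- A nonempty compact set is not invariant under a nonzero translation. -/
lemma eq_of_translates {K H : Set (Fin d → ℝ)} (hH : IsCompact H) (hne : K.Nonempty)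
    {u v : Fin d → ℝ} (hu : ∀ y, y ∈ K ↔ y - u ∈ H) (hv : ∀ y, y ∈ K ↔ y - v ∈ H) : u = v := by
  have key : ∀ {u v : Fin d → ℝ}, (∀ y, y ∈ K ↔ y - u ∈ H) → (∀ y, y ∈ K ↔ y - v ∈ H) →
      ∀ i, u i ≤ v i := by
    intro u v hu hv i
    obtain ⟨k, hk⟩ := hne
    have hHne : H.Nonempty := ⟨_, (hu k).mp hk⟩
    obtain ⟨m, hm, hmax⟩ := hH.exists_isMaxOn hHne (continuous_apply i).continuousOn
    have h1 : m + u ∈ K := by rw [hu]; simpa using hm
    have h2 : m + u - v ∈ H := (hv _).mp h1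
    have h3 : (m + u - v) i ≤ m i := hmax h2
    simp only [Pi.sub_apply, Pi.add_apply] at h3
    linarith
  ext i
  exact le_antisymm (key hu hv i) (key hv hu i)

/-- **Convex bodies are determined by the real Ehrhart functions of their integer translates.**
It is enough to know these functions on an arbitrarily short interval `(0, ε)`. -/
theorem result (d : ℕ) (K H : Set (Fin d → ℝ)) (hK : IsConvexBody K) (hH : IsConvexBody H)
    (ε : ℝ) (hε : 0 < ε)
    (h : ∀ s : ℝ, 0 < s → s < ε → ∀ w : Fin d → ℤ,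
      realEhrhart (translate K w) s = realEhrhart (translate H w) s) :
    K = H := by
  obtain ⟨C1, hC1⟩ := hK.1.isBounded.exists_norm_le
  obtain ⟨C2, hC2⟩ := hH.1.isBounded.exists_norm_le
  set C : ℝ := max (max C1 C2) 1 with hC
  have hC1' : ∀ a ∈ K, ‖a‖ ≤ C := fun a ha => (hC1 a ha).trans
    ((le_max_left _ _).trans (le_max_left _ _))
  have hC2' : ∀ a ∈ H, ‖a‖ ≤ C := fun a ha => (hC2 a ha).trans
    ((le_max_right _ _).trans (le_max_left _ _))
  have hCpos : 0 < C := lt_of_lt_of_le one_pos (le_max_right _ _)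
  -- choose an irrational small parameter
  have hpos : 0 < min ε (1 / (4 * C)) := lt_min hε (by positivity)
  obtain ⟨s, hsirr, hs0, hs1⟩ := exists_irrational_btwn hpos
  have hsε : s < ε := hs1.trans_le (min_le_left _ _)
  have hsC : s * (2 * C) < 1 / 2 := by
    have : s < 1 / (4 * C) := hs1.trans_le (min_le_right _ _)
    rw [lt_div_iff₀ (by positivity)] at this
    linarith
  -- the second parameter
  set t : ℝ := (s⁻¹ + 1)⁻¹ with ht
  have hspos : (0 : ℝ) < s⁻¹ := inv_pos.mpr hs0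
  have ht0 : 0 < t := inv_pos.mpr (by linarith)
  have hts : t < s := by
    rw [ht, inv_lt_comm₀ (by linarith) hs0]
    linarith
  have htirr : Irrational t := by
    have h1 : Irrational (s⁻¹) := hsirr.inv
    have h2 : Irrational (s⁻¹ + 1) := by simpa using h1.add_intCast 1
    exact h2.inv
  have htC : t * (2 * C) < 1 / 2 := by
    have : t * (2 * C) < s * (2 * C) := by
      apply mul_lt_mul_of_pos_right hts (by positivity)
    linarith
  obtain ⟨x, hx⟩ := translate_of_param hK hH hC1' hC2' hs0 hsirr hsC (h s hs0 hsε)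
  obtain ⟨y, hy⟩ := translate_of_param hK hH hC1' hC2' ht0 htirr htC
    (h t ht0 (hts.trans hsε))
  have hKne : K.Nonempty := hK.2.2.mono interior_subset
  have hxy : s⁻¹ • toReal x = t⁻¹ • toReal y := eq_of_translates hH.1 hKne hx hy
  have hx0 : x = 0 := by
    ext i
    have h1 : s⁻¹ * (x i : ℝ) = t⁻¹ * (y i : ℝ) := by
      have := congrFun hxy i
      simpa [toReal] using this
    rw [ht, inv_inv] at h1
    have h2 : s⁻¹ * ((x i - y i : ℤ) : ℝ) = (y i : ℝ) := by push_cast; linarith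
    by_contra hne
    by_cases h3 : x i - y i = 0
    · rw [h3] at h2
      simp at h2
      have h4 : y i = 0 := by exact_mod_cast h2.symm
      apply hne
      simp only [Pi.zero_apply]
      omega
    · have h4 : Irrational (s⁻¹ * ((x i - y i : ℤ) : ℝ)) := hsirr.inv.mul_intCast h3
      rw [h2] at h4
      exact h4 ⟨(y i : ℚ), by push_cast; rfl⟩
  ext z
  rw [hx z, hx0]
  have : toReal (0 : Fin d → ℤ) = 0 := by ext i; simp [toReal]
  rw [this]
  simp

end Main

end Pool.Agent.Results.MP_c39918_co.Reconstruction
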